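import Pool.Agent.H37.CTP.Stmts
import Pool.Agent.H17.CND.LON
import Pool.Agent.H17.CND.ZPW
import Pool.Agent.H88.CND.EXP

/-!
Row R42 of the board `ctp`: the shape of the elements of the wild inertia group
-/

set_option autoImplicit false

namespace Pool.CND

open Finset Polynomial

theorem r42_thm (_hWLD : S_WLD) : S_R42 := by
  intro k F L _ _ _ _ _ _ f q s t X G₀ ρ P hchar hf hq hF hQ4 hR hC hO w hw
  have hq2 : 2 ≤ q := by
    rw [hq]
    calc 2 = 2 ^ 1 := (pow_one 2).symm
      _ ≤ 2 ^ f := Nat.pow_le_pow_right (by norm_num) hf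
  have hqz : (2 : ℤ) ≤ (q : ℤ) := by exact_mod_cast hq2
  have hXne : ∀ i, X i ≠ 0 := by
    intro i h
    have h1 := hR.ind (fun j => if j = i then 1 else 0) (by
      rw [Finset.sum_eq_single i]
      · rw [h, mul_zero]
      · intro j _ hj
        simp [cst, hj]
      · intro h2
        exact absurd (mem_univ i) h2)
    have h2 := congrFun h1 i
    simp at h2
  -- strict increase
  have hbig : ∀ x : L, x ≠ 0 → P.Ge (ρ w x - x) (P.ord x + 1) := by
    intro x hx
    obtain ⟨hfix, hram⟩ := hw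
    have h3 : P.Ge (ρ w P.pi - P.pi) ((1 : ℤ) + 1) := by
      rcases hram P.pi P.pi_ne P.ord_pi with h | h
      · exact Or.inl (sub_eq_zero.2 h)
      · right
        simpa using h
    rcases lon_thm exp_thm zpw_thm k L P (ρ w) P.pi 1 hfix P.pi_ne P.ord_pi (by norm_num) h3 x
      with h | h
    · exact h
    · exact absurd h hx
  -- the difference
  have hdiff : ∀ i, ρ w (X i) - X i =
      ∑ j, cst k F L (w.1.1 j i - if j = i then 1 else 0) * X j := by
    intro i
    rw [hC.act w i]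
    have h1 : ∀ j, cst k F L (w.1.1 j i - if j = i then 1 else 0) * X j =
        cst k F L (w.1.1 j i) * X j - (if j = i then X j else 0) := by
      intro j
      split_ifs <;> simp [cst] <;> ring
    rw [sum_congr rfl fun j _ => h1 j, sum_sub_distrib, sum_ite_eq' univ i X]
    simp
  have hQ : (4 : ℤ) ≤ (q : ℤ) ^ (s + 1) := by exact_mod_cast hQ4
  have hneg := hO.neg
  -- orders
  have hX0 : 0 ≤ P.ord (X 0) := by
    by_contra hcon
    rw [not_le] at hcon
    have h1 : ((q : ℤ) - 1) * P.ord (X 0) < 0 :=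
      mul_neg_of_pos_of_neg (by linarith) hcon
    have h2 := hO.small
    have h3 : ((q : ℤ) * ((q : ℤ) ^ (s + 1) - 2) - 1) * P.ord t ≤ 0 :=
      mul_nonpos_of_nonneg_of_nonpos (by nlinarith) hneg.le
    linarith
  have hsingle : ∀ i : Fin (s + 3),
      (∑ j, cst k F L ((fun j => if j = i then (1 : F) else 0) j) * X j) = X i := by
    intro i
    rw [Finset.sum_eq_single i]
    · simp [cst]
    · intro j _ hj
      simp [cst, hj]
    · intro h2
      exact absurd (mem_univ i) h2
  have hmid : ∀ i : Fin (s + 3), i ≠ 0 → i ≠ Fin.last (s + 2) →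
      (q : ℤ) * ((q : ℤ) ^ (s + 1) - 1) * P.ord (X i) = ((q : ℤ) ^ (s + 1) - 3) * P.ord t := by
    intro i hi hir
    have h1 := hO.mid (fun j => if j = i then 1 else 0)
      (if_neg (Ne.symm hir)) ⟨i, hi, by simp⟩
    rwa [hsingle i] at h1
  have htop : (q : ℤ) * (q : ℤ) ^ (s + 1) * P.ord (X (Fin.last (s + 2))) =
      ((q : ℤ) ^ (s + 1) - 2) * P.ord t := by
    have h1 := hO.top (fun j => if j = Fin.last (s + 2) then 1 else 0) (by simp)
    rwa [hsingle (Fin.last (s + 2))] at h1
  have hmt : P.ord t ≤ 0 := hneg.le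
  -- the last root has the least order
  have hlow : ∀ j, ((q : ℤ) ^ (s + 1) - 2) * P.ord t ≤
      (q : ℤ) * (q : ℤ) ^ (s + 1) * P.ord (X j) := by
    intro j
    by_cases hj : j = Fin.last (s + 2)
    · rw [hj, htop]
    · by_cases hj0 : j = 0
      · rw [hj0]
        have h1 : (0 : ℤ) ≤ (q : ℤ) * (q : ℤ) ^ (s + 1) * P.ord (X 0) :=
          mul_nonneg (mul_nonneg (by linarith) (by linarith)) hX0
        have h2 : ((q : ℤ) ^ (s + 1) - 2) * P.ord t ≤ 0 :=
          mul_nonpos_of_nonneg_of_nonpos (by linarith) hmt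
        linarith
      · have h1 := hmid j hj0 hj
        have hD : (0 : ℤ) < (q : ℤ) ^ (s + 1) - 1 := by linarith
        by_contra hcon
        rw [not_le] at hcon
        have h2 := mul_lt_mul_of_pos_left hcon hD
        have h3 : ((q : ℤ) ^ (s + 1) - 1) * ((q : ℤ) * (q : ℤ) ^ (s + 1) * P.ord (X j)) =
            (q : ℤ) ^ (s + 1) * (((q : ℤ) ^ (s + 1) - 3) * P.ord t) := by
          rw [← h1]
          ring
        rw [h3] at h2
        have h4 : (q : ℤ) ^ (s + 1) * (((q : ℤ) ^ (s + 1) - 3) * P.ord t) -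
            ((q : ℤ) ^ (s + 1) - 1) * (((q : ℤ) ^ (s + 1) - 2) * P.ord t) = -2 * P.ord t := by
          ring
        linarith
  -- the last row
  have hc : ∀ j, w.1.1 (Fin.last (s + 2)) j = if Fin.last (s + 2) = j then 1 else 0 := by
    intro j
    by_contra hne
    have hne' : w.1.1 (Fin.last (s + 2)) j - (if Fin.last (s + 2) = j then 1 else 0) ≠ 0 :=
      sub_ne_zero.2 hne
    have h1 := hO.top (fun l => w.1.1 l j - if l = j then 1 else 0) hne'
    have h2 := hbig (X j) (hXne j)
    rw [hdiff j] at h2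
    rcases h2 with h2 | h2
    · exact hne' (congrFun (hR.ind (fun l => w.1.1 l j - if l = j then 1 else 0) h2) _)
    · have h3 := hlow j
      have hqQ : (0 : ℤ) < (q : ℤ) * (q : ℤ) ^ (s + 1) := mul_pos (by linarith) (by linarith)
      have h4 : (q : ℤ) * (q : ℤ) ^ (s + 1) * (P.ord (X j) + 1) ≤
          (q : ℤ) * (q : ℤ) ^ (s + 1) *
            P.ord (∑ l, cst k F L (w.1.1 l j - if l = j then 1 else 0) * X l) :=
        mul_le_mul_of_nonneg_left h2 hqQ.le
      have h5 : (q : ℤ) * (q : ℤ) ^ (s + 1) *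
            P.ord (∑ l, cst k F L (w.1.1 l j - if l = j then 1 else 0) * X l) =
          ((q : ℤ) ^ (s + 1) - 2) * P.ord t := h1
      rw [h5] at h4
      linarith
  have hb : ∀ i j, j ≠ Fin.last (s + 2) → i ≠ 0 → w.1.1 i j = if i = j then 1 else 0 := by
    intro i j hj hi
    by_cases hir : i = Fin.last (s + 2)
    · rw [hir]
      exact hc j
    by_contra hne
    have hne' : w.1.1 i j - (if i = j then 1 else 0) ≠ 0 := sub_ne_zero.2 hne
    have h1 := hO.mid (fun l => w.1.1 l j - if l = j then 1 else 0)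
      (by rw [hc j, sub_self]) ⟨i, hi, hne'⟩
    have h2 := hbig (X j) (hXne j)
    rw [hdiff j] at h2
    rcases h2 with h2 | h2
    · exact hne' (congrFun (hR.ind (fun l => w.1.1 l j - if l = j then 1 else 0) h2) i)
    · have hD : (0 : ℤ) < (q : ℤ) * ((q : ℤ) ^ (s + 1) - 1) :=
        mul_pos (by linarith) (by linarith)
      have h3 : ((q : ℤ) ^ (s + 1) - 3) * P.ord t ≤
          (q : ℤ) * ((q : ℤ) ^ (s + 1) - 1) * P.ord (X j) := by
        by_cases hj0 : j = 0
        · rw [hj0]
          have h6 := mul_nonneg hD.le hX0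
          have h7 : ((q : ℤ) ^ (s + 1) - 3) * P.ord t ≤ 0 :=
            mul_nonpos_of_nonneg_of_nonpos (by linarith) hmt
          linarith
        · rw [hmid j hj0 hj]
      have h4 : (q : ℤ) * ((q : ℤ) ^ (s + 1) - 1) *
          P.ord (∑ l, cst k F L (w.1.1 l j - if l = j then 1 else 0) * X l) =
          ((q : ℤ) ^ (s + 1) - 3) * P.ord t := h1
      have h5 : (q : ℤ) * ((q : ℤ) ^ (s + 1) - 1) * (P.ord (X j) + 1) ≤
          (q : ℤ) * ((q : ℤ) ^ (s + 1) - 1) *
            P.ord (∑ l, cst k F L (w.1.1 l j - if l = j then 1 else 0) * X l) :=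
        mul_le_mul_of_nonneg_left h2 hD.le
      rw [h4] at h5
      linarith
  refine ⟨?_, hb, hc⟩
  by_contra hne
  have hne' : w.1.1 0 0 - 1 ≠ 0 := sub_ne_zero.2 hne
  have h2 := hbig (X 0) (hXne 0)
  have h0l : (0 : Fin (s + 3)) ≠ Fin.last (s + 2) := by
    intro h
    have := congrArg Fin.val h
    simp at this
  have h3 : (∑ l, cst k F L (w.1.1 l 0 - if l = 0 then 1 else 0) * X l) =
      cst k F L (w.1.1 0 0 - 1) * X 0 := by
    rw [Finset.sum_eq_single 0]
    · simp
    · intro l _ hl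
      rw [hb l 0 h0l hl, sub_self]
      simp [cst]
    · intro h
      exact absurd (mem_univ _) h
  rw [hdiff 0, h3] at h2
  have hk : algebraMap F k (w.1.1 0 0 - 1) ≠ 0 := by
    rw [Ne, map_eq_zero]
    exact hne'
  have hL : cst k F L (w.1.1 0 0 - 1) ≠ 0 := by
    show algebraMap k L (algebraMap F k (w.1.1 0 0 - 1)) ≠ 0
    rw [Ne, map_eq_zero]
    exact hk
  rcases h2 with h2 | h2
  · rcases mul_eq_zero.1 h2 with h4 | h4
    · exact hL h4
    · exact hXne 0 h4
  · rw [P.ord_mul _ _ hL (hXne 0), show P.ord (cst k F L (w.1.1 0 0 - 1)) = 0 from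
      P.ord_const _ hk] at h2
    linarith

end Pool.CND
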